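import Pool.Agent.R640.MemMain

/-!
# Membership problems for tree-like inverse monoids (MP_56939f_al, Q1 (a)-(d), negative answers)

For a queue machine which replaces the queue `x y t` by `t P(x, y)` or halts, let `M` be the inverse
monoid generated by the symbols, `ρ` and `0` with the relations `ρ⁻¹ x y ≤ P(x, y) ρ⁻¹` if the
machine does not halt on the pair `x, y`, `ρ⁻¹ x y = 0` if it halts, and those of a zero. The element
`z ρ⁻¹` is nilpotent if and only if the machine halts on the queue `z`: if `z` is rewritten to `z'`
then a power of `z ρ⁻¹` is `a s b` with `s` below a power of `z' ρ⁻¹`, and if the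
machine does not halt on `z` then the trace of its run is an infinite graph on which `M` acts
such that `z ρ⁻¹` fixes the first vertex. The Schützenberger graphs of `M` are finite: the relations
preserve the exponent of `ρ`, which divides the vertices into levels, and create new vertices on the
level above that of the symbols `x y` only.
-/

set_option autoImplicit false

namespace Pool.Agent.Results.MP_56939f_al.UndecidableMembership

open Pool.Agent.R640.IM

/-- There is a finitely presented inverse monoid with finite Schützenberger graphs, which is
therefore tree-like, for which the rational subset, submonoid, inverse submonoid and closed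
inverse submonoid membership problems are undecidable. -/
theorem result : ∃ (k : ℕ) (R : Set (List (Fin k × Bool) × List (Fin k × Bool))),
    R.Finite ∧ (∀ w, Finite (Vert R w)) ∧ TreeLike R ∧
    (¬ ComputablePred fun p : (List (ℕ × (Fin k × Bool) × ℕ) × List ℕ × List ℕ) ×
      List (Fin k × Bool) => RatMem R p.1.1 p.1.2.1 p.1.2.2 p.2) ∧
    (¬ ComputablePred fun p : List (List (Fin k × Bool)) × List (Fin k × Bool) =>
      SubMem R p.1 p.2) ∧
    (¬ ComputablePred fun p : List (List (Fin k × Bool)) × List (Fin k × Bool) =>
      InvMem R p.1 p.2) ∧
    (¬ ComputablePred fun p : List (List (Fin k × Bool)) × List (Fin k × Bool) =>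
      ClMem R p.1 p.2) :=
  Mem.undecidable

end Pool.Agent.Results.MP_56939f_al.UndecidableMembership
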